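import Pool.Agent.H1.HillF

open Filter Topology Polynomial

/-- A first-kind pathology of the Floquet matrix of `u'' + p u = lam u` over `lam = 0`. -/
theorem Pool.Agent.Results.MP_1bac39_an.Disproof.result :
    ∃ (b : ℝ) (p : ℝ → ℂ) (u : Fin 2 → ℂ → ℝ → ℂ) (T : ℂ → Matrix (Fin 2) (Fin 2) ℂ) (r : ℂ → ℂ),
      0 < b ∧ Continuous p ∧ Function.Periodic p b ∧
      (∀ j lam, ContDiff ℝ 2 (u j lam) ∧
        ∀ x, iteratedDeriv 2 (u j lam) x + p x * u j lam x = lam * u j lam x) ∧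
      (∀ (j k : Fin 2) lam, iteratedDeriv k (u j lam) 0 = if j = k then 1 else 0) ∧
      (∀ lam j x, u j lam (x + b) = ∑ i, T lam i j * u i lam x) ∧
      (∀ i j, Differentiable ℂ fun lam => T lam i j) ∧
      analyticOrderAt (fun lam => (T lam).trace ^ 2 - 4 * (T lam).det) 0 = 3 ∧
      AnalyticAt ℂ r 0 ∧
      (∀ᶠ ζ in 𝓝[≠] (0 : ℂ), r ζ ≠ r (-ζ) ∧
        (T (ζ ^ 2)).charpoly = (X - C (r ζ)) * (X - C (r (-ζ))) ∧
        Module.End.eigenspace (Matrix.toLin' (T (ζ ^ 2))) (r ζ) ⊔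
          Module.End.eigenspace (Matrix.toLin' (T (ζ ^ 2))) (r (-ζ)) = ⊤) ∧
      r 0 = 1 ∧ T 0 = 1 ∧ Module.End.eigenspace (Matrix.toLin' (T 0)) (r 0) = ⊤ := by
  open Pool.Agent.H1.Hill in
  have hc := fun lam : ℂ => second (S1.c_d 0 (-lam)) (S1.dc_d 0 (-lam))
    ((S1.hq.sub continuous_const).mul (Sys.cont_of (S1.c_d 0 (-lam))))
  open Pool.Agent.H1.Hill in
  have hs := fun lam : ℂ => second (S1.s_d 0 (-lam)) (S1.ds_d 0 (-lam))
    ((S1.hq.sub continuous_const).mul (Sys.cont_of (S1.s_d 0 (-lam))))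
  open Pool.Agent.H1.Hill in
  have hT : !![S1.c 0 (-0) (0 + S1.a), S1.s 0 (-0) (0 + S1.a);
      S1.dc 0 (-0) (0 + S1.a), S1.ds 0 (-0) (0 + S1.a)] = 1 := by
    have h1 := S1.c_eq 0 (-0)
    have h2 := S1.tr_eq 0 (-0)
    have h3 : S1.ds 0 (-0) (0 + S1.a) = 1 := by rw [h1] at h2; linear_combination h2
    rw [h3, h1, S1.s_eq, S1.dc_eq, Matrix.one_fin_two]; simp
  open Pool.Agent.H1.Hill in
  refine ⟨4 * Real.pi, fun x => -q x, ![fun lam => S1.c 0 (-lam), fun lam => S1.s 0 (-lam)],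
    fun lam => !![S1.c 0 (-lam) (0 + S1.a), S1.s 0 (-lam) (0 + S1.a);
      S1.dc 0 (-lam) (0 + S1.a), S1.ds 0 (-lam) (0 + S1.a)], br, by positivity, q_cont.neg,
    fun x => by simp only [q_per], ?_, ?_, ?_, ?_, ?_, br_an, ?_, br_zero, hT, ?_⟩
  · intro j lam
    fin_cases j
    · refine ⟨(hc lam).1, fun x => ?_⟩
      simp only [Fin.zero_eta, Matrix.cons_val_zero, (hc lam).2.2]
      change (Pool.Agent.H1.Hill.q x - -lam) * _ + _ = _
      ring
    · refine ⟨(hs lam).1, fun x => ?_⟩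
      simp only [Fin.mk_one, Matrix.cons_val_one, Matrix.cons_val_zero, (hs lam).2.2]
      change (Pool.Agent.H1.Hill.q x - -lam) * _ + _ = _
      ring
  · intro j k lam
    open Pool.Agent.H1.Hill in
    fin_cases j <;> fin_cases k <;>
      simp [(hc lam).2.1, (hs lam).2.1, Sys.c_init, Sys.dc_init, Sys.s_init, Sys.ds_init,
        -iteratedDeriv_one]
  · intro lam j x
    open Pool.Agent.H1.Hill in
    fin_cases j
    · simpa [Fin.sum_univ_two, S1] using translate (-lam) (S1.c_d 0 _) (S1.dc_d 0 _) x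
    · simpa [Fin.sum_univ_two, S1] using translate (-lam) (S1.s_d 0 _) (S1.ds_d 0 _) x
  · intro i j
    open Pool.Agent.H1.Hill in
    obtain ⟨h1, h2, h3, h4⟩ := entire (0 + S1.a)
    fin_cases i <;> fin_cases j
    exacts [h1, h2, h3, h4]
  · open Pool.Agent.H1.Hill in
    refine order_eq (n := 3) (hh_an 0) hh_ne fun lam => ?_
    rw [Matrix.trace_fin_two_of, Matrix.det_fin_two_of, Pool.Agent.H1.Hill.S1.det_eq, mul_one]
    exact Pool.Agent.H1.Hill.tr_sq lam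
  · open Pool.Agent.H1.Hill in
    filter_upwards [br_ne] with ζ h
    open Pool.Agent.H1.Hill in
    exact ⟨h, two_eig _ _ _ _ _ _ (br_sum ζ).symm (by rw [br_mul, S1.det_eq]) h⟩
  · simp only [hT, Pool.Agent.H1.Hill.br_zero, eq_top_iff]
    intro v _
    simp
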